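import Pool.Agent.U41.PH.Stm

/-! Project PH (helper41), package FA1 (helper580): assembly of the geometric part. -/

set_option autoImplicit false

namespace Pool.Agent.U41.PH

open Pool.Agent.H918R2.Quad Pool.Agent.TH214.RM Pool.Agent.U41.OD MvPolynomial

theorem fa1_form_map {R S : Type} [CommRing R] [CommRing S] (φ : R →+* S) {n d k : ℕ}
    (ex : Fin k ≃ Idx n d) (a : Fin k → R) :
    map φ (form ex a) = form ex (fun i => φ (a i)) := by
  unfold form
  rw [map_sum]
  refine Finset.sum_congr rfl fun i _ => ?_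
  rw [map_monomial]

theorem fa1_form_hom {R : Type} [CommRing R] {n d k : ℕ} (ex : Fin k ≃ Idx n d) (a : Fin k → R) :
    (form ex a).IsHomogeneous d := by
  unfold form
  refine IsHomogeneous.sum _ _ _ fun i _ => ?_
  exact isHomogeneous_monomial _ (ex i).2.1

theorem fa1_spec {n d k : ℕ} (ex : Fin k ≃ Idx n d) (x : Fin (k + 1) → ℤ) :
    map (eval x) (full ex) = spec ex x := by
  unfold full spec
  rw [map_member, fa1_form_map]
  simp only [eval_X]

theorem fa1_cert {R S : Type} [CommRing R] [CommRing S] (φ : R →+* S) {m : ℕ}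
    (F : MvPolynomial (Fin m) R) (W : R) (i : Fin m) (M : ℕ)
    (h : (C W * X i ^ M : MvPolynomial (Fin m) R) ∈
      Ideal.span (Set.range fun j : Fin m => (pderiv j F : MvPolynomial (Fin m) R))) :
    (C (φ W) * X i ^ M : MvPolynomial (Fin m) S) ∈
      Ideal.span (Set.range fun j : Fin m => (pderiv j (map φ F) : MvPolynomial (Fin m) S)) := by
  have h1 := Ideal.mem_map_of_mem (map φ : MvPolynomial (Fin m) R →+* MvPolynomial (Fin m) S) h
  rw [Ideal.map_span, map_mul, map_pow, map_C, map_X] at h1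
  refine Ideal.span_mono ?_ h1
  rintro _ ⟨_, ⟨j, rfl⟩, rfl⟩
  exact ⟨j, pderiv_map⟩

theorem fa1_smooth {m : ℕ} (F : MvPolynomial (Fin m) ℤ) (W : ℤ) (hW : W ≠ 0)
    (h : ∀ i : Fin m, ∃ M : ℕ, (C W * X i ^ M : MvPolynomial (Fin m) ℤ) ∈
      Ideal.span (Set.range fun j : Fin m => (pderiv j F : MvPolynomial (Fin m) ℤ))) :
    Smooth (map (algebraMap ℤ ℚ) F) := by
  intro i
  obtain ⟨M, hM⟩ := h i
  have h1 := fa1_cert (algebraMap ℤ ℚ) F W i M hM
  rw [Ideal.mem_radical_iff]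
  refine ⟨M, ?_⟩
  have h2 := Ideal.mul_mem_left _ (C ((algebraMap ℤ ℚ W)⁻¹)) h1
  have h3 : algebraMap ℤ ℚ W ≠ 0 := by
    simpa using hW
  rwa [← mul_assoc, ← C_mul, inv_mul_cancel₀ h3, C_1, one_mul] at h2

theorem fa1_sec {n d : ℕ} (G : MvPolynomial (Fin (n + 2)) ℤ) (hG : G.IsHomogeneous d) (c W : ℤ)
    (M : ℕ) (h : (C W * X 0 ^ M : MvPolynomial (Fin (n + 2)) ℤ) ∈
      Ideal.span (Set.range fun j : Fin (n + 2) =>
        (pderiv j (member d G c) : MvPolynomial (Fin (n + 2)) ℤ))) :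
    C W ∈ Ideal.span (insert (deh 0 G + C c) (Set.range fun j => pderiv j (deh 0 G))) := by
  obtain ⟨Q, hQ⟩ : ∃ Q, Q = Ideal.span (insert (deh 0 G + C c)
    (Set.range fun j => pderiv j (deh 0 G))) := ⟨_, rfl⟩
  rw [← hQ]
  have ht : (tau 0 0 : MvPolynomial {i : Fin (n + 2) // i ≠ 0} ℤ) = 1 := by
    unfold tau
    rw [dif_pos rfl]
  have hF : deh 0 (member d G c) = deh 0 G + C c := by
    unfold member deh
    rw [map_add, map_mul, map_pow, aeval_X, ht, one_pow, mul_one, aeval_C]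
    rfl
  have hall := all_pderiv_mem (member d G c) d (member_hom hG c) 0 Q
    (by rw [hF, hQ]; exact Ideal.subset_span (Set.mem_insert _ _))
    (fun j => by
      rw [hF, hQ, map_add, pderiv_C, add_zero]
      exact Ideal.subset_span (Set.mem_insert_of_mem _ ⟨j, rfl⟩))
  have h1 : Ideal.span (Set.range fun j : Fin (n + 2) =>
      (pderiv j (member d G c) : MvPolynomial (Fin (n + 2)) ℤ)) ≤ Q.comap
      ((aeval (tau 0) : MvPolynomial (Fin (n + 2)) ℤ →ₐ[ℤ]
        MvPolynomial {j : Fin (n + 2) // j ≠ 0} ℤ) : _ →+* _) := by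
    rw [Ideal.span_le]
    rintro _ ⟨j, rfl⟩
    exact hall j
  have h2 : (aeval (tau 0) : MvPolynomial (Fin (n + 2)) ℤ →ₐ[ℤ]
      MvPolynomial {j : Fin (n + 2) // j ≠ 0} ℤ) (C W * X 0 ^ M) ∈ Q := h1 h
  rw [map_mul, map_pow, aeval_X, ht, one_pow, mul_one, aeval_C] at h2
  exact h2

theorem fa1_prime {k : ℕ} {h : MvPolynomial (Fin k) ℤ} (hh : Irreducible h) :
    Prime (rename Fin.succ h) := by
  have e1 : ∀ q : MvPolynomial (Fin k) ℤ, finSuccEquiv ℤ k (rename Fin.succ q) = Polynomial.C q := by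
    intro q
    induction q using MvPolynomial.induction_on with
    | C a => simp
    | add p q hp hq => rw [map_add, map_add, hp, hq, Polynomial.C_add]
    | mul_X p i hp => rw [map_mul, map_mul, hp, rename_X, finSuccEquiv_X_succ, Polynomial.C_mul]
  have h1 : Prime (finSuccEquiv ℤ k (rename Fin.succ h)) := by
    rw [e1]
    exact Polynomial.prime_C_iff.2 hh.prime
  exact (MulEquiv.prime_iff (finSuccEquiv ℤ k)).1 h1

theorem fa1_W (hCD : S_CD) (hNK : S_NK) {n d k : ℕ} (ex : Fin k ≃ Idx n d) (hd : 2 ≤ d)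
    (h : MvPolynomial (Fin k) ℤ) (hh : Irreducible h) (hdeg : 0 < h.totalDegree) :
    ∃ W : MvPolynomial (Fin (k + 1)) ℤ, ¬ rename Fin.succ h ∣ W ∧ ∀ i : Fin (n + 2), ∃ M : ℕ,
      (C W * X i ^ M : MvPolynomial (Fin (n + 2)) (MvPolynomial (Fin (k + 1)) ℤ)) ∈
        Ideal.span (Set.range fun j : Fin (n + 2) =>
          (pderiv j (full ex) : MvPolynomial (Fin (n + 2)) (MvPolynomial (Fin (k + 1)) ℤ))) := by
  have hprime := fa1_prime hh
  obtain ⟨I, hI0⟩ : ∃ I : Ideal (MvPolynomial (Fin (k + 1)) ℤ),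
    I = Ideal.span {rename Fin.succ h} := ⟨_, rfl⟩
  have hI : I.IsPrime := by
    rw [hI0]
    exact (Ideal.span_singleton_prime hprime.ne_zero).2 hprime
  let κ := FractionRing (MvPolynomial (Fin (k + 1)) ℤ ⧸ I)
  let φ : MvPolynomial (Fin (k + 1)) ℤ →+* κ :=
    (algebraMap (MvPolynomial (Fin (k + 1)) ℤ ⧸ I) κ).comp (Ideal.Quotient.mk I)
  have hinj : Function.Injective (algebraMap (MvPolynomial (Fin (k + 1)) ℤ ⧸ I) κ) :=
    IsFractionRing.injective _ _
  have hφ : ∀ f, φ f = 0 ↔ rename Fin.succ h ∣ f := by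
    intro f
    have h1 : φ f = algebraMap (MvPolynomial (Fin (k + 1)) ℤ ⧸ I) κ (Ideal.Quotient.mk I f) := rfl
    rw [h1, map_eq_zero_iff _ hinj, Ideal.Quotient.eq_zero_iff_mem, hI0, Ideal.mem_span_singleton]
  have hφ' : ∀ z : κ, ∃ f g, φ g ≠ 0 ∧ z * φ g = φ f := by
    intro z
    obtain ⟨a, b, hb, hz⟩ := IsFractionRing.div_surjective
      (MvPolynomial (Fin (k + 1)) ℤ ⧸ I) z
    obtain ⟨f, rfl⟩ := Ideal.Quotient.mk_surjective a
    obtain ⟨g, rfl⟩ := Ideal.Quotient.mk_surjective b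
    have hb' : φ g ≠ 0 := by
      have h1 : φ g = algebraMap (MvPolynomial (Fin (k + 1)) ℤ ⧸ I) κ (Ideal.Quotient.mk I g) := rfl
      rw [h1, Ne, map_eq_zero_iff _ hinj]
      exact nonZeroDivisors.ne_zero hb
    refine ⟨f, g, hb', ?_⟩
    rw [← hz]
    exact div_mul_cancel₀ _ hb'
  obtain ⟨W, hW, hcert⟩ := hNK φ (full ex) (member_hom (fa1_form_hom ex _) _) hφ'
    (hCD ex hd h hh hdeg φ hφ hφ')
  exact ⟨W, fun hdvd => hW ((hφ W).2 hdvd), hcert⟩

theorem FA1_ok (hU1 : S_U1) (hU2 : S_U2) (hU3 : S_U3) (hCL : S_CL) (hPEN : S_PEN) (hCD : S_CD)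
    (hNK : S_NK) (hSP : S_SP) : S_FA1 := by
  classical
  intro n d k ex hd
  have hd2 : 2 ≤ d := by omega
  -- the certificate of the universal form
  obtain ⟨N, hN0, hN⟩ := hCL (O := MvPolynomial (Fin k) ℤ)
    (K := FractionRing (MvPolynomial (Fin k) ℤ)) (univ ex)
    ⟨hU1 ex hd2 _ rfl, hU2 ex hd2 _ rfl, hU3 ex hd2 _ rfl⟩
  obtain ⟨f, hf, hfN⟩ := WfDvdMonoid.exists_factors N hN0
  -- the factors of positive degree
  obtain ⟨l, hl⟩ : ∃ l : List (MvPolynomial (Fin k) ℤ),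
    ∀ b, b ∈ l ↔ b ∈ f ∧ 0 < b.totalDegree := by
    refine ⟨(f.filter fun b => 0 < b.totalDegree).toList, fun b => ?_⟩
    rw [Multiset.mem_toList, Multiset.mem_filter]
  have hW : ∀ j : Fin l.length, ∃ W : MvPolynomial (Fin (k + 1)) ℤ,
      ¬ rename Fin.succ (l.get j) ∣ W ∧ ∀ i : Fin (n + 2), ∃ M : ℕ,
      (C W * X i ^ M : MvPolynomial (Fin (n + 2)) (MvPolynomial (Fin (k + 1)) ℤ)) ∈
        Ideal.span (Set.range fun j : Fin (n + 2) =>
          (pderiv j (full ex) : MvPolynomial (Fin (n + 2)) (MvPolynomial (Fin (k + 1)) ℤ))) := by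
    intro j
    obtain ⟨h1, h2⟩ := (hl (l.get j)).1 (List.get_mem l j)
    exact fa1_W hCD hNK ex hd2 _ (hf _ h1) h2
  choose W hW1 hW2 using hW
  -- a polynomial whose zeros contain the singular forms
  have hi0 : ∃ i₀ : Fin k, True := by
    refine ⟨ex.symm ⟨Finsupp.single 1 d, ?_, ?_⟩, trivial⟩
    · simp
    · intro h
      have := DFunLike.congr_fun h 0
      simp at this
      omega
  obtain ⟨i₀, -⟩ := hi0
  obtain ⟨E, hE1, hE2⟩ := fa1_W hCD hNK ex hd2 (X i₀ : MvPolynomial (Fin k) ℤ)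
    (MvPolynomial.X_prime (i := i₀)).irreducible (by rw [totalDegree_X]; exact one_pos)
  obtain ⟨e, he⟩ : ∃ e : ℤ, e = 2 * ((f.filter fun b => ¬ 0 < b.totalDegree).map
    fun b => constantCoeff b).prod := ⟨_, rfl⟩
  have hconst : ∀ b ∈ f, ¬ 0 < b.totalDegree → b = C (constantCoeff b) := by
    intro b _ hb
    have h1 : b.totalDegree = 0 := by omega
    rw [totalDegree_eq_zero_iff_eq_C] at h1
    rw [constantCoeff_eq]
    exact h1
  refine ⟨l.length, l.get, W, E, e, ?_, ?_, ?_, ?_⟩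
  · rintro rfl
    exact hE1 (dvd_zero _)
  · rw [he]
    refine mul_ne_zero two_ne_zero (Multiset.prod_ne_zero ?_)
    intro h0
    rw [Multiset.mem_map] at h0
    obtain ⟨b, hb, hb'⟩ := h0
    rw [Multiset.mem_filter] at hb
    have h1 := hconst b hb.1 hb.2
    rw [hb', C_0] at h1
    exact (hf b hb.1).ne_zero h1
  · intro j
    exact ⟨hf _ ((hl (l.get j)).1 (List.get_mem l j)).1, hW1 j⟩
  · intro x hx
    -- certificates of the specialized form
    have hEx : ∀ i : Fin (n + 2), ∃ M : ℕ, (C (eval x E) * X i ^ M : MvPolynomial (Fin (n + 2)) ℤ) ∈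
        Ideal.span (Set.range fun j : Fin (n + 2) =>
          (pderiv j (spec ex x) : MvPolynomial (Fin (n + 2)) ℤ)) := by
      intro i
      obtain ⟨M, hM⟩ := hE2 i
      have h1 := fa1_cert (eval x) (full ex) E i M hM
      rw [fa1_spec] at h1
      exact ⟨M, h1⟩
    refine ⟨fa1_smooth (spec ex x) (eval x E) hx hEx, ?_⟩
    intro p hp hpe hpj
    have hpZ : Prime (p : ℤ) := Nat.prime_iff_prime_int.1 hp
    obtain ⟨𝔭, h𝔭⟩ : ∃ 𝔭 : Ideal ℤ, 𝔭 = Ideal.span {(p : ℤ)} := ⟨_, rfl⟩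
    rw [← h𝔭]
    have hmem : ∀ a : ℤ, a ∈ 𝔭 ↔ (p : ℤ) ∣ a := fun a => by rw [h𝔭, Ideal.mem_span_singleton]
    have h𝔭p : 𝔭.IsPrime := by
      rw [h𝔭]
      exact (Ideal.span_singleton_prime hpZ.ne_zero).2 hpZ
    have h𝔭0 : 𝔭 ≠ ⊥ := by
      rw [h𝔭, Ne, Ideal.span_singleton_eq_bot]
      exact hpZ.ne_zero
    have h𝔭f : Finite (ℤ ⧸ 𝔭) := Ideal.finiteQuotientOfFreeOfNeBot 𝔭 h𝔭0
    have h2 : (2 : ℤ) ∉ 𝔭 := by
      rw [hmem]
      intro h
      exact hpe (by rw [he]; exact h.mul_right _)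
    -- the point without the first coordinate
    obtain ⟨x', hx'⟩ : ∃ x' : Fin k → ℤ, x' = fun i => x i.succ := ⟨_, rfl⟩
    have hren : ∀ q : MvPolynomial (Fin k) ℤ, eval x (rename Fin.succ q) = eval x' q := by
      intro q
      rw [eval_rename, hx']
      rfl
    by_cases hNp : (p : ℤ) ∣ eval x' N
    · -- the prime divides one of the factors
      obtain ⟨u, hu⟩ := hfN
      have h3 : eval x' N = (f.map fun b => eval x' b).prod * eval x' (u : MvPolynomial (Fin k) ℤ) := by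
        rw [← hu, map_mul, map_multiset_prod]
      have h4 : IsUnit (eval x' (u : MvPolynomial (Fin k) ℤ)) := u.isUnit.map (eval x')
      have h5 : (p : ℤ) ∣ (f.map fun b => eval x' b).prod := by
        rw [h3] at hNp
        rcases hpZ.dvd_or_dvd hNp with h | h
        · exact h
        · exact absurd (isUnit_of_dvd_unit h h4) hpZ.not_isUnit
      obtain ⟨b, hb, hpb⟩ := hpZ.exists_mem_multiset_map_dvd h5
      have h6 : 0 < b.totalDegree := by
        by_contra hcon
        have h7 := hconst b hb hcon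
        rw [h7, eval_C] at hpb
        apply hpe
        rw [he]
        refine Dvd.dvd.mul_left (hpb.trans (Multiset.dvd_prod ?_)) _
        exact Multiset.mem_map_of_mem _ (Multiset.mem_filter.2 ⟨hb, hcon⟩)
      obtain ⟨j, hj⟩ := List.mem_iff_get.1 ((hl b).2 ⟨hb, h6⟩)
      have h8 : ¬ (p : ℤ) ∣ eval x (W j) := by
        intro h9
        exact hpj j ⟨by rw [hj, hren]; exact hpb, h9⟩
      have hcrit : Crit 𝔭 (spec ex x) := by
        refine crit_of_smooth 𝔭 (spec ex x) d (member_hom (fa1_form_hom ex _) _) fun i => ?_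
        obtain ⟨M, hM⟩ := hW2 j i
        have h1 := fa1_cert (eval x) (full ex) (W j) i M hM
        rw [fa1_spec] at h1
        exact ⟨eval x (W j), by rw [hmem]; exact h8, M, h1⟩
      exact locAt_of_crit 𝔭 (spec ex x) hcrit
    · -- the prime does not divide the value of `N`
      have hcert : Cert (eval x' N) (form ex x') := by
        have h1 := hSP (eval x' : MvPolynomial (Fin k) ℤ →+* ℤ) N (univ ex) hN
        have h2 : map (eval x') (univ ex) = form ex x' := by
          unfold univ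
          rw [fa1_form_map]
          simp only [eval_X]
        rwa [h2] at h1
      obtain ⟨M, hM⟩ := hEx 0
      have hsec : C (eval x E) ∈ Ideal.span (insert (deh 0 (form ex x') + C (x 0))
          (Set.range fun j => pderiv j (deh 0 (form ex x')))) := by
        refine fa1_sec (d := d) (form ex x') (fa1_form_hom ex x') (x 0) (eval x E) M ?_
        rw [hx']
        exact hM
      have hcase := hPEN (d := d) (form ex x') (eval x' N) 𝔭 h𝔭p h𝔭0 h𝔭f
        (by rw [hmem]; exact hNp) h2 hd2 (fa1_form_hom ex x') hcert (x 0) ⟨eval x E, hx, hsec⟩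
      have hsp : form ex x' + C (x 0) * X 0 ^ d = spec ex x := by
        rw [hx']
        rfl
      rw [hsp] at hcase
      rcases hcase with h | ⟨a, h⟩
      · exact locAt_of_crit 𝔭 (spec ex x) h
      · exact locAt_of_node 𝔭 (spec ex x) a h

end Pool.Agent.U41.PH
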