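import Pool.Agent.U41.PH.StmE
import Pool.Agent.U580.PH.FA1

/-! Project PH (helper41), package FA1E (helper580): the geometric part over all number fields. -/

set_option autoImplicit false

open NumberField

namespace Pool.Agent.U41.PH

open Pool.Agent.H918R2.Quad Pool.Agent.TH214.RM Pool.Agent.U41.OD MvPolynomial

theorem fa1e_smooth {K : Type} [Field K] [CharZero K] {m : ℕ} (F : MvPolynomial (Fin m) ℤ) (W : ℤ)
    (hW : W ≠ 0)
    (h : ∀ i : Fin m, ∃ M : ℕ, (C W * X i ^ M : MvPolynomial (Fin m) ℤ) ∈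
      Ideal.span (Set.range fun j : Fin m => (pderiv j F : MvPolynomial (Fin m) ℤ))) :
    Smooth (map (algebraMap ℤ K) F) := by
  intro i
  obtain ⟨M, hM⟩ := h i
  have h1 := fa1_cert (algebraMap ℤ K) F W i M hM
  rw [Ideal.mem_radical_iff]
  refine ⟨M, ?_⟩
  have h2 := Ideal.mul_mem_left _ (C ((algebraMap ℤ K W)⁻¹)) h1
  have h3 : algebraMap ℤ K W ≠ 0 := by
    rw [eq_intCast]
    exact_mod_cast hW
  rwa [← mul_assoc, ← C_mul, inv_mul_cancel₀ h3, C_1, one_mul] at h2

theorem fa1e_sec {R S : Type} [CommRing R] [CommRing S] (ψ : R →+* S) {n : ℕ}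
    (G : MvPolynomial (Fin (n + 2)) R) (c W : R)
    (h : C W ∈ Ideal.span (insert (deh 0 G + C c) (Set.range fun j => pderiv j (deh 0 G)))) :
    C (ψ W) ∈ Ideal.span (insert (deh 0 (map ψ G) + C (ψ c))
      (Set.range fun j => pderiv j (deh 0 (map ψ G)))) := by
  have h1 := Ideal.mem_map_of_mem (map ψ : MvPolynomial {j : Fin (n + 2) // j ≠ 0} R →+*
    MvPolynomial {j : Fin (n + 2) // j ≠ 0} S) h
  rw [Ideal.map_span, map_C] at h1
  refine Ideal.span_mono ?_ h1
  rintro _ ⟨y, hy, rfl⟩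
  rcases Set.mem_insert_iff.1 hy with rfl | ⟨j, rfl⟩
  · left
    rw [map_add, map_C, map_deh]
  · right
    refine ⟨j, ?_⟩
    show pderiv j (deh 0 (map ψ G)) = map ψ (pderiv j (deh 0 G))
    rw [← map_deh, pderiv_map]

theorem FA1E_ok (hU1 : S_U1) (hU2 : S_U2) (hU3 : S_U3) (hCL : S_CL) (hPEN : S_PEN) (hCD : S_CD)
    (hNK : S_NK) (hSP : S_SP) : S_FA1E := by
  classical
  intro n d k ex hd
  have hd2 : 2 ≤ d := by omega
  -- the certificate of the universal form
  obtain ⟨N, hN0, hN⟩ := hCL (O := MvPolynomial (Fin k) ℤ)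
    (K := FractionRing (MvPolynomial (Fin k) ℤ)) (univ ex)
    ⟨hU1 ex hd2 _ rfl, hU2 ex hd2 _ rfl, hU3 ex hd2 _ rfl⟩
  obtain ⟨f, hf, hfN⟩ := WfDvdMonoid.exists_factors N hN0
  -- the factors of positive degree
  obtain ⟨l, hl⟩ : ∃ l : List (MvPolynomial (Fin k) ℤ),
    ∀ b, b ∈ l ↔ b ∈ f ∧ 0 < b.totalDegree := by
    refine ⟨(f.filter fun b => 0 < b.totalDegree).toList, fun b => ?_⟩
    rw [Multiset.mem_toList, Multiset.mem_filter]
  have hW : ∀ j : Fin l.length, ∃ W : MvPolynomial (Fin (k + 1)) ℤ,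
      ¬ rename Fin.succ (l.get j) ∣ W ∧ ∀ i : Fin (n + 2), ∃ M : ℕ,
      (C W * X i ^ M : MvPolynomial (Fin (n + 2)) (MvPolynomial (Fin (k + 1)) ℤ)) ∈
        Ideal.span (Set.range fun j : Fin (n + 2) =>
          (pderiv j (full ex) : MvPolynomial (Fin (n + 2)) (MvPolynomial (Fin (k + 1)) ℤ))) := by
    intro j
    obtain ⟨h1, h2⟩ := (hl (l.get j)).1 (List.get_mem l j)
    exact fa1_W hCD hNK ex hd2 _ (hf _ h1) h2
  choose W hW1 hW2 using hW
  -- a polynomial whose zeros contain the singular forms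
  have hi0 : ∃ i₀ : Fin k, True := by
    refine ⟨ex.symm ⟨Finsupp.single 1 d, ?_, ?_⟩, trivial⟩
    · simp
    · intro h
      have := DFunLike.congr_fun h 0
      simp at this
      omega
  obtain ⟨i₀, -⟩ := hi0
  obtain ⟨E, hE1, hE2⟩ := fa1_W hCD hNK ex hd2 (X i₀ : MvPolynomial (Fin k) ℤ)
    (MvPolynomial.X_prime (i := i₀)).irreducible (by rw [totalDegree_X]; exact one_pos)
  obtain ⟨e, he⟩ : ∃ e : ℤ, e = 2 * ((f.filter fun b => ¬ 0 < b.totalDegree).map
    fun b => constantCoeff b).prod := ⟨_, rfl⟩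
  have hconst : ∀ b ∈ f, ¬ 0 < b.totalDegree → b = C (constantCoeff b) := by
    intro b _ hb
    have h1 : b.totalDegree = 0 := by omega
    rw [totalDegree_eq_zero_iff_eq_C] at h1
    rw [constantCoeff_eq]
    exact h1
  refine ⟨l.length, l.get, W, E, e, ?_, ?_, ?_, ?_⟩
  · rintro rfl
    exact hE1 (dvd_zero _)
  · rw [he]
    refine mul_ne_zero two_ne_zero (Multiset.prod_ne_zero ?_)
    intro h0
    rw [Multiset.mem_map] at h0
    obtain ⟨b, hb, hb'⟩ := h0
    rw [Multiset.mem_filter] at hb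
    have h1 := hconst b hb.1 hb.2
    rw [hb', C_0] at h1
    exact (hf b hb.1).ne_zero h1
  · intro j
    exact ⟨hf _ ((hl (l.get j)).1 (List.get_mem l j)).1, hW1 j⟩
  · intro x hx K _ _
    -- certificates of the specialized form
    have hEx : ∀ i : Fin (n + 2), ∃ M : ℕ, (C (eval x E) * X i ^ M : MvPolynomial (Fin (n + 2)) ℤ) ∈
        Ideal.span (Set.range fun j : Fin (n + 2) =>
          (pderiv j (spec ex x) : MvPolynomial (Fin (n + 2)) ℤ)) := by
      intro i
      obtain ⟨M, hM⟩ := hE2 i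
      have h1 := fa1_cert (eval x) (full ex) E i M hM
      rw [fa1_spec] at h1
      exact ⟨M, h1⟩
    refine ⟨fa1e_smooth (spec ex x) (eval x E) hx hEx, ?_⟩
    intro p 𝔭 hp h𝔭p hp𝔭 hpe hpj
    have hpZ : Prime (p : ℤ) := Nat.prime_iff_prime_int.1 hp
    obtain ⟨ψ, hψ⟩ : ∃ ψ : ℤ →+* 𝓞 K, ψ = algebraMap ℤ (𝓞 K) := ⟨_, rfl⟩
    have hψ0 : ∀ a : ℤ, ψ a = 0 → a = 0 := by
      intro a ha
      rw [hψ, eq_intCast] at ha
      exact_mod_cast ha
    have hmem : ∀ a : ℤ, ψ a ∈ 𝔭 → (p : ℤ) ∣ a := by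
      intro a ha
      by_contra hna
      have hcop : IsCoprime (p : ℤ) a := (hpZ.irreducible.coprime_iff_not_dvd).2 hna
      obtain ⟨u, v, huv⟩ := hcop
      have h1 : ψ (u * p + v * a) ∈ 𝔭 := by
        rw [map_add, map_mul, map_mul]
        refine Ideal.add_mem _ (Ideal.mul_mem_left _ _ ?_) (Ideal.mul_mem_left _ _ ha)
        rw [hψ, eq_intCast, Int.cast_natCast]
        exact hp𝔭
      rw [huv, map_one] at h1
      exact h𝔭p.ne_top ((Ideal.eq_top_iff_one _).2 h1)
    have h𝔭0 : 𝔭 ≠ ⊥ := by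
      intro h
      rw [h, Ideal.mem_bot] at hp𝔭
      exact hp.ne_zero (by exact_mod_cast hp𝔭)
    have h𝔭f : Finite (𝓞 K ⧸ 𝔭) := Ideal.finiteQuotientOfFreeOfNeBot 𝔭 h𝔭0
    have h2 : (2 : 𝓞 K) ∉ 𝔭 := by
      intro h
      have h3 : ψ 2 ∈ 𝔭 := by rwa [map_ofNat]
      exact hpe (by rw [he]; exact (hmem 2 h3).mul_right _)
    have hcomp : map (algebraMap ℤ K) (spec ex x) = map (algebraMap (𝓞 K) K) (map ψ (spec ex x)) := by
      have h3 : algebraMap ℤ K = (algebraMap (𝓞 K) K).comp ψ := RingHom.ext_int _ _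
      rw [map_map, ← h3]
    rw [hcomp]
    have hspm : map ψ (spec ex x) = member d (map ψ (form ex fun i => x i.succ)) (ψ (x 0)) := by
      unfold spec
      rw [map_member]
    have hhom : (map ψ (spec ex x)).IsHomogeneous d := by
      rw [hspm, fa1_form_map]
      exact member_hom (fa1_form_hom ex _) _
    -- the point without the first coordinate
    obtain ⟨x', hx'⟩ : ∃ x' : Fin k → ℤ, x' = fun i => x i.succ := ⟨_, rfl⟩
    have hren : ∀ q : MvPolynomial (Fin k) ℤ, eval x (rename Fin.succ q) = eval x' q := by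
      intro q
      rw [eval_rename, hx']
      rfl
    by_cases hNp : (p : ℤ) ∣ eval x' N
    · -- the prime divides one of the factors
      obtain ⟨u, hu⟩ := hfN
      have h3 : eval x' N = (f.map fun b => eval x' b).prod * eval x' (u : MvPolynomial (Fin k) ℤ) := by
        rw [← hu, map_mul, map_multiset_prod]
      have h4 : IsUnit (eval x' (u : MvPolynomial (Fin k) ℤ)) := u.isUnit.map (eval x')
      have h5 : (p : ℤ) ∣ (f.map fun b => eval x' b).prod := by
        rw [h3] at hNp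
        rcases hpZ.dvd_or_dvd hNp with h | h
        · exact h
        · exact absurd (isUnit_of_dvd_unit h h4) hpZ.not_isUnit
      obtain ⟨b, hb, hpb⟩ := hpZ.exists_mem_multiset_map_dvd h5
      have h6 : 0 < b.totalDegree := by
        by_contra hcon
        have h7 := hconst b hb hcon
        rw [h7, eval_C] at hpb
        apply hpe
        rw [he]
        refine Dvd.dvd.mul_left (hpb.trans (Multiset.dvd_prod ?_)) _
        exact Multiset.mem_map_of_mem _ (Multiset.mem_filter.2 ⟨hb, hcon⟩)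
      obtain ⟨j, hj⟩ := List.mem_iff_get.1 ((hl b).2 ⟨hb, h6⟩)
      have h8 : ¬ (p : ℤ) ∣ eval x (W j) := by
        intro h9
        exact hpj j ⟨by rw [hj, hren]; exact hpb, h9⟩
      have hcrit : Crit 𝔭 (map ψ (spec ex x)) := by
        refine crit_of_smooth 𝔭 (map ψ (spec ex x)) d hhom fun i => ?_
        obtain ⟨M, hM⟩ := hW2 j i
        have h1 := fa1_cert (eval x) (full ex) (W j) i M hM
        rw [fa1_spec] at h1
        exact ⟨ψ (eval x (W j)), fun h => h8 (hmem _ h), M, fa1_cert ψ _ _ i M h1⟩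
      exact locAt_of_crit 𝔭 (map ψ (spec ex x)) hcrit
    · -- the prime does not divide the value of `N`
      have hcert : Cert (eval x' N) (form ex x') := by
        have h1 := hSP (eval x' : MvPolynomial (Fin k) ℤ →+* ℤ) N (univ ex) hN
        have h2 : map (eval x') (univ ex) = form ex x' := by
          unfold univ
          rw [fa1_form_map]
          simp only [eval_X]
        rwa [h2] at h1
      have hcert' := hSP ψ (eval x' N) (form ex x') hcert
      obtain ⟨M, hM⟩ := hEx 0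
      have hsec : C (eval x E) ∈ Ideal.span (insert (deh 0 (form ex x') + C (x 0))
          (Set.range fun j => pderiv j (deh 0 (form ex x')))) := by
        refine fa1_sec (d := d) (form ex x') (fa1_form_hom ex x') (x 0) (eval x E) M ?_
        rw [hx']
        exact hM
      have hsec' := fa1e_sec ψ (form ex x') (x 0) (eval x E) hsec
      have hhom' : (map ψ (form ex x')).IsHomogeneous d := by
        rw [fa1_form_map]
        exact fa1_form_hom ex _
      have hcase := hPEN (d := d) (map ψ (form ex x')) (ψ (eval x' N)) 𝔭 h𝔭p h𝔭0 h𝔭f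
        (fun h => hNp (hmem _ h)) h2 hd2 hhom' hcert' (ψ (x 0))
        ⟨ψ (eval x E), fun h => hx (hψ0 _ h), hsec'⟩
      have hsp : map ψ (form ex x') + C (ψ (x 0)) * X 0 ^ d = map ψ (spec ex x) := by
        rw [hspm, hx']
        rfl
      rw [hsp] at hcase
      rcases hcase with h | ⟨a, h⟩
      · exact locAt_of_crit 𝔭 (map ψ (spec ex x)) h
      · exact locAt_of_node 𝔭 (map ψ (spec ex x)) a h

end Pool.Agent.U41.PH
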